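import Pool.Agent.Lib.MP_b026a7_co.Lin

namespace Pool.Agent.Results.MP_b026a7_co.LinearThreshold

open Pool.Agent.Lib.MP_b026a7_co

/-- Explicit linear thresholds for regularity of disjoint Golomb rulers: `H(I,J) = IJ` for every
`I ≥ 4p` if `p` is an odd prime and `J ≤ p`, for every `I ≥ 2p` if `J = p - 1`, `p` prime, and for
every `I ≥ 8J` for all `J ≥ 1`. -/
theorem result :
    (∀ I J p : ℕ, p.Prime → 3 ≤ p → J ≤ p → 4 * p ≤ I → H I J = I * J) ∧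
    (∀ I p : ℕ, p.Prime → 2 * p ≤ I → H I (p - 1) = I * (p - 1)) ∧
    (∀ I J : ℕ, 1 ≤ J → 8 * J ≤ I → H I J = I * J) :=
  ⟨fun _ _ _ hp hp3 hJ hI => H_eq_of_four_mul hp hp3 hJ hI,
    fun _ _ hp hI => H_eq_pred_prime hp (Or.inr hI),
    fun _ _ hJ hI => H_eq_of_eight_mul hJ hI⟩

end Pool.Agent.Results.MP_b026a7_co.LinearThreshold
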