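import Pool.Agent.Lib.MP_b026a7_co.Upper
import Pool.Agent.Lib.MP_b026a7_co.Lower

namespace Pool.Agent.Results.MP_b026a7_co.SharpThreshold

open Pool.Agent.Lib.MP_b026a7_co

/-- The regularity threshold for disjoint Golomb rulers is asymptotically `I = J`: for every
`ε > 0` and all large `J` every `I ≥ (1 + ε) J` has `H(I,J) = IJ` and no `1 ≤ I ≤ (1 - ε) J` has.
The first conjunct is the quantitative form of the upper part. -/
theorem result :
    (∀ p I J : ℕ, p.Prime → J < I → I ≤ 3 * J → I * J ≤ p * (p - 1) →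
      10 ^ 6 * J ^ 2 * (p ^ 2 - I * J) ≤ (I - J) ^ 4 → H I J = I * J) ∧
    (∀ ε : ℝ, 0 < ε → ∃ J₀ : ℕ, ∀ J ≥ J₀, ∀ I : ℕ,
      ((1 + ε) * J ≤ I → H I J = I * J) ∧
      (1 ≤ I → (I : ℝ) ≤ (1 - ε) * J → I * J < H I J)) := by
  refine ⟨fun p I J hp h1 h2 h3 h4 => H_eq_of_explicit hp h1 h2 h3 h4, fun ε hε => ?_⟩
  obtain ⟨J1, h1⟩ := H_eq_of_large ε hε
  obtain ⟨J2, h2⟩ := H_gt_of_small ε hε
  refine ⟨max J1 J2, fun J hJ I => ⟨fun h => h1 J (le_trans (le_max_left _ _) hJ) I h,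
    fun h h' => h2 J (le_trans (le_max_right _ _) hJ) I h h'⟩⟩

end Pool.Agent.Results.MP_b026a7_co.SharpThreshold
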